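import Mathlib

/-!
The curve where the derivative of a rational function is real, and its bounded components.
-/

namespace Q48.IR

open Polynomial

/-- The rational function `P / Q` is in lowest terms and its pole divisor is
`∑ m p [p] + mInf [∞]`: the order of the pole at a finite point `p` is the multiplicity of `p` as
a root of `Q`, and the order of the pole at infinity is the excess of the degree of `P` over
the degree of `Q`. -/
def HasPoleDivisor (P Q : ℂ[X]) (m : ℂ →₀ ℕ) (mInf : ℕ) : Prop :=
  Q ≠ 0 ∧ IsCoprime P Q ∧ (∀ p, Q.rootMultiplicity p = m p) ∧ P.natDegree - Q.natDegree = mInf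

/-- The finite part of the curve: the finite poles of `R = P / Q` and the other points `z` of
the complex plane where the derivative of `R` is real. -/
def curve (P Q : ℂ[X]) : Set ℂ :=
  {z | Q.eval z = 0 ∨ (deriv (fun w => P.eval w / Q.eval w) z).im = 0}

/-- The bounded connected components of the curve. -/
def boundedComponents (P Q : ℂ[X]) : Set (Set ℂ) :=
  {C | ∃ z ∈ curve P Q, C = connectedComponentIn (curve P Q) z ∧ Bornology.IsBounded C}

end Q48.IR
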