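import Mathlib
import Pool.Agent.Q48.IR.Defs

namespace Q48.IR

open Polynomial Filter Topology

/-! ### topology -/

/-- a bounded component of a closed set has small compact relatively open neighbourhoods -/
theorem exists_clopen {A : Set ℂ} (hA : IsClosed A) {z : ℂ} (hz : z ∈ A)
    (hb : Bornology.IsBounded (connectedComponentIn A z)) {U : Set ℂ} (hU : IsOpen U)
    (hCU : connectedComponentIn A z ⊆ U) :
    ∃ V : Set ℂ, IsOpen V ∧ z ∈ V ∧ A ∩ V ⊆ U ∧ IsCompact (A ∩ V) := by
  obtain ⟨ρ, hρ⟩ := hb.subset_ball (0 : ℂ)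
  have hzC : z ∈ connectedComponentIn A z := mem_connectedComponentIn hz
  set X : Set ℂ := A ∩ Metric.closedBall 0 ρ with hX
  have hXc : IsCompact X := (isCompact_closedBall 0 ρ).inter_left hA
  have hXs : CompactSpace X := isCompact_iff_compactSpace.mp hXc
  have hzX : z ∈ X := ⟨hz, Metric.ball_subset_closedBall (hρ hzC)⟩
  -- the component in the compact piece
  have hcomp : (Subtype.val '' connectedComponent (⟨z, hzX⟩ : X)) ⊆ connectedComponentIn A z := by
    refine IsPreconnected.subset_connectedComponentIn ?_ ⟨⟨z, hzX⟩, mem_connectedComponent, rfl⟩ ?_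
    · exact isPreconnected_connectedComponent.image _ continuous_subtype_val.continuousOn
    · rintro _ ⟨w, _, rfl⟩
      exact w.2.1
  set W : Set ℂ := U ∩ Metric.ball 0 ρ with hW
  have hWo : IsOpen W := hU.inter Metric.isOpen_ball
  have hCW : connectedComponentIn A z ⊆ W := Set.subset_inter hCU hρ
  let F : Set X := {w | (w : ℂ) ∉ W}
  have hF : IsClosed F := by
    have : IsOpen ((Subtype.val : X → ℂ) ⁻¹' W) := hWo.preimage continuous_subtype_val
    exact isOpen_compl_iff.mp (by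
      convert this using 1
      ext w
      simp [F])
  have hinter : (F ∩ ⋂ s : { s : Set X // IsClopen s ∧ (⟨z, hzX⟩ : X) ∈ s }, s.1) = ∅ := by
    rw [← connectedComponent_eq_iInter_isClopen]
    rw [Set.eq_empty_iff_forall_notMem]
    rintro w ⟨hw1, hw2⟩
    exact hw1 (hCW (hcomp ⟨w, hw2, rfl⟩))
  have hne : Nonempty { s : Set X // IsClopen s ∧ (⟨z, hzX⟩ : X) ∈ s } :=
    ⟨⟨Set.univ, isClopen_univ, Set.mem_univ _⟩⟩
  obtain ⟨Z, hZ⟩ := hF.isCompact.elim_directed_family_closed
    (fun s : { s : Set X // IsClopen s ∧ (⟨z, hzX⟩ : X) ∈ s } => s.1)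
    (fun s => s.2.1.isClosed) hinter (by
      intro s t
      exact ⟨⟨s.1 ∩ t.1, s.2.1.inter t.2.1, s.2.2, t.2.2⟩, Set.inter_subset_left,
        Set.inter_subset_right⟩)
  obtain ⟨V', hV'o, hV'⟩ := isOpen_induced_iff.mp Z.2.1.isOpen
  have hZW : ∀ w : X, w ∈ Z.1 → (w : ℂ) ∈ W := by
    intro w hw
    by_contra hc
    exact Set.eq_empty_iff_forall_notMem.mp hZ w ⟨hc, hw⟩
  have himg : A ∩ (Metric.ball 0 ρ ∩ V') = Subtype.val '' Z.1 := by
    ext w
    constructor
    · rintro ⟨h1, h2, h3⟩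
      refine ⟨⟨w, h1, Metric.ball_subset_closedBall h2⟩, ?_, rfl⟩
      rw [← hV']
      exact h3
    · rintro ⟨w, hw, rfl⟩
      refine ⟨w.2.1, (hZW w hw).2, ?_⟩
      rw [← hV'] at hw
      exact hw
  refine ⟨Metric.ball 0 ρ ∩ V', Metric.isOpen_ball.inter hV'o, ⟨hρ hzC, ?_⟩, ?_, ?_⟩
  · have : (⟨z, hzX⟩ : X) ∈ Z.1 := Z.2.2
    rw [← hV'] at this
    exact this
  · rw [himg]
    rintro _ ⟨w, hw, rfl⟩
    exact (hZW w hw).1
  · rw [himg]
    exact Z.2.1.isClosed.isCompact.image continuous_subtype_val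

/-! ### the derivative -/

section

variable {P Q : ℂ[X]}

/-- numerator of the derivative -/
noncomputable def num (P Q : ℂ[X]) : ℂ[X] := derivative P * Q - P * derivative Q

/-- the derivative, with value zero at the poles -/
noncomputable def F (P Q : ℂ[X]) (z : ℂ) : ℂ := (num P Q).eval z / Q.eval z ^ 2

theorem deriv_eq {z : ℂ} (hz : Q.eval z ≠ 0) :
    deriv (fun w => P.eval w / Q.eval w) z = F P Q z := by
  have h1 := (P.hasDerivAt z).div (Q.hasDerivAt z) hz
  have h2 := h1.deriv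
  unfold F num
  rw [eval_sub, eval_mul, eval_mul]
  exact h2

theorem mem_curve {z : ℂ} : z ∈ curve P Q ↔ (F P Q z).im = 0 := by
  unfold curve
  by_cases hz : Q.eval z = 0
  · simp only [Set.mem_ofPred_eq, hz, true_or, true_iff]
    simp [F, hz]
  · simp only [Set.mem_ofPred_eq, hz, false_or]
    rw [deriv_eq hz]

theorem continuousAt_F {z : ℂ} (hz : Q.eval z ≠ 0) : ContinuousAt (F P Q) z := by
  unfold F
  exact ContinuousAt.div (Polynomial.continuous _).continuousAt
    ((Polynomial.continuous _).continuousAt.pow 2) (pow_ne_zero 2 hz)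

theorem polyAnalytic (f : ℂ[X]) (z : ℂ) : AnalyticAt ℂ (fun w => f.eval w) z :=
  (f.differentiable).analyticAt z

theorem analyticAt_F {z : ℂ} (hz : Q.eval z ≠ 0) : AnalyticAt ℂ (F P Q) z := by
  unfold F
  exact AnalyticAt.div (polyAnalytic _ _) ((polyAnalytic _ _).pow 2)
    (pow_ne_zero 2 hz)

theorem isClosed_curve : IsClosed (curve P Q) := by
  rw [← isOpen_compl_iff, isOpen_iff_mem_nhds]
  intro z hz
  rw [Set.mem_compl_iff, mem_curve] at hz
  have hQ : Q.eval z ≠ 0 := by
    intro h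
    apply hz
    simp [F, h]
  have h1 : ContinuousAt (fun w => (F P Q w).im) z :=
    Complex.continuous_im.continuousAt.comp (continuousAt_F hQ)
  have h2 := h1.preimage_mem_nhds (isOpen_compl_singleton.mem_nhds (show (F P Q z).im ∈ ({0}ᶜ : Set ℝ)
    from hz))
  filter_upwards [h2] with w hw
  rw [Set.mem_compl_iff, mem_curve]
  exact hw

/-- the derivative is not constant -/
theorem num_ne (hPQ : IsCoprime P Q) (hdeg : 0 < Q.natDegree) (c : ℂ) :
    num P Q ≠ C c * Q ^ 2 := by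
  intro h
  have h1 : Q ∣ P * derivative Q := by
    have : P * derivative Q = Q * (derivative P - C c * Q) := by
      unfold num at h
      linear_combination -h
    rw [this]
    exact dvd_mul_right _ _
  have h2 : Q ∣ derivative Q := hPQ.symm.dvd_of_dvd_mul_left h1
  have h3 : derivative Q = 0 := by
    by_contra h0
    have := natDegree_le_of_dvd h2 h0
    have := natDegree_derivative_lt (p := Q) hdeg.ne'
    omega
  have := Polynomial.derivative_eq_zero.mp h3
  omega

theorem nhds_le_map (hPQ : IsCoprime P Q) (hdeg : 0 < Q.natDegree) {z : ℂ}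
    (hz : Q.eval z ≠ 0) : 𝓝 (F P Q z) ≤ map (F P Q) (𝓝 z) := by
  rcases (analyticAt_F (P := P) hz).eventually_constant_or_nhds_le_map_nhds with h | h
  · exfalso
    refine num_ne hPQ hdeg (F P Q z) ?_
    have h2 : ∀ᶠ w in 𝓝 z, Q.eval w ≠ 0 :=
      (Polynomial.continuous Q).continuousAt.eventually_ne hz
    have h3 : ∀ᶠ w in 𝓝 z, (num P Q).eval w = (C (F P Q z) * Q ^ 2).eval w := by
      filter_upwards [h, h2] with w hw1 hw2
      rw [eval_mul, eval_C, eval_pow, ← hw1]
      unfold F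
      field_simp
    refine Polynomial.eq_of_infinite_eval_eq _ _ ?_
    exact infinite_of_mem_nhds z h3
  · exact h

/-- one can always increase a real value of the derivative -/
theorem increase (hPQ : IsCoprime P Q) (hdeg : 0 < Q.natDegree) {z : ℂ}
    (hz : Q.eval z ≠ 0) (hreal : (F P Q z).im = 0) {V : Set ℂ} (hV : V ∈ 𝓝 z) :
    ∃ w ∈ V, (F P Q w).im = 0 ∧ (F P Q z).re < (F P Q w).re := by
  have h1 : F P Q '' V ∈ 𝓝 (F P Q z) := nhds_le_map hPQ hdeg hz (image_mem_map hV)
  obtain ⟨ε, hε, hb⟩ := Metric.mem_nhds_iff.mp h1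
  have h2 : F P Q z + ((ε / 2 : ℝ) : ℂ) ∈ Metric.ball (F P Q z) ε := by
    rw [Metric.mem_ball, dist_eq_norm, add_sub_cancel_left, Complex.norm_real,
      Real.norm_eq_abs, abs_of_pos (by positivity)]
    linarith
  obtain ⟨w, hw, hw2⟩ := hb h2
  refine ⟨w, hw, ?_, ?_⟩
  · rw [hw2, Complex.add_im, hreal, Complex.ofReal_im, add_zero]
  · rw [hw2, Complex.add_re, Complex.ofReal_re]
    linarith

/-- every bounded component contains a pole -/
theorem exists_root (hPQ : IsCoprime P Q) (hdeg : 0 < Q.natDegree) {z : ℂ}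
    (hz : z ∈ curve P Q) (hb : Bornology.IsBounded (connectedComponentIn (curve P Q) z)) :
    ∃ p ∈ connectedComponentIn (curve P Q) z, Q.eval p = 0 := by
  by_contra hc
  push Not at hc
  have hU : IsOpen {w : ℂ | Q.eval w ≠ 0} :=
    isOpen_ne_fun (Polynomial.continuous Q) continuous_const
  obtain ⟨V, hV, hzV, hVU, hK⟩ := exists_clopen isClosed_curve hz hb hU hc
  have hcont : ContinuousOn (fun w => (F P Q w).re) (curve P Q ∩ V) := fun w hw =>
    (Complex.continuous_re.continuousAt.comp (continuousAt_F (hVU hw))).continuousWithinAt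
  obtain ⟨x, hx, hmax⟩ := hK.exists_isMaxOn ⟨z, hz, hzV⟩ hcont
  obtain ⟨w, hw, hw1, hw2⟩ := increase hPQ hdeg (hVU hx) (mem_curve.mp hx.1) (hV.mem_nhds hx.2)
  have := hmax (show w ∈ curve P Q ∩ V from ⟨mem_curve.mpr hw1, hw⟩)
  exact absurd this (not_le.mpr hw2)

/-- the function at infinity -/
theorem at_infinity (hPQ : IsCoprime P Q) (hdeg : 0 < Q.natDegree)
    (hle : P.natDegree ≤ Q.natDegree) :
    (∀ ρ : ℝ, ∃ z : ℂ, ρ < ‖z‖ ∧ (F P Q z).im = 0 ∧ 0 < (F P Q z).re) ∧
    (∀ δ : ℝ, 0 < δ → ∃ ρ : ℝ, ∀ z : ℂ, ρ < ‖z‖ → (F P Q z).re < δ) := by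
  set D := 2 * Q.natDegree with hD
  have hQ0 : Q ≠ 0 := by
    rintro rfl
    simp at hdeg
  have hMdeg : (Q ^ 2).natDegree = D := natDegree_pow Q 2
  have hNlt : (num P Q).natDegree < D := by
    unfold num
    refine (natDegree_sub_le _ _).trans_lt (max_lt ?_ ?_)
    · refine natDegree_mul_le.trans_lt ?_
      rcases Nat.eq_zero_or_pos P.natDegree with h0 | h0
      · rw [eq_C_of_natDegree_eq_zero h0, derivative_C, natDegree_zero]
        omega
      · have := natDegree_derivative_lt (p := P) h0.ne'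
        omega
    · refine natDegree_mul_le.trans_lt ?_
      have := natDegree_derivative_lt (p := Q) hdeg.ne'
      omega
  set G : ℂ → ℂ := fun w => (reflect D (num P Q)).eval w / (reflect D (Q ^ 2)).eval w with hG
  have hev : ∀ (f : ℂ[X]), f.natDegree ≤ D → ∀ w : ℂ, w ≠ 0 →
      (reflect D f).eval w = w ^ D * f.eval w⁻¹ := by
    intro f hf w hw
    have hinv : Invertible (w⁻¹) := invertibleOfNonzero (inv_ne_zero hw)
    have h := eval₂_reflect_mul_pow (RingHom.id ℂ) w⁻¹ D f hf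
    rw [← eval, ← eval, invOf_eq_inv, inv_inv] at h
    rw [← h, inv_pow]
    field_simp
  have hGF : ∀ w : ℂ, w ≠ 0 → G w = F P Q w⁻¹ := by
    intro w hw
    simp only [hG]
    rw [hev _ hNlt.le w hw, hev _ hMdeg.le w hw, eval_pow]
    unfold F
    rw [mul_div_mul_left _ _ (pow_ne_zero D hw)]
  have hM0 : (reflect D (Q ^ 2)).eval 0 ≠ 0 := by
    rw [← coeff_zero_eq_eval_zero, coeff_reflect, revAt_le (Nat.zero_le _), Nat.sub_zero, ← hMdeg]
    exact leadingCoeff_ne_zero.mpr (pow_ne_zero 2 hQ0)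
  have hN0 : (reflect D (num P Q)).eval 0 = 0 := by
    rw [← coeff_zero_eq_eval_zero, coeff_reflect, revAt_le (Nat.zero_le _), Nat.sub_zero]
    exact coeff_eq_zero_of_natDegree_lt hNlt
  have hG0 : G 0 = 0 := by
    simp only [hG, hN0, zero_div]
  have hGan : AnalyticAt ℂ G 0 := AnalyticAt.div (polyAnalytic _ _)
    (polyAnalytic _ _) hM0
  constructor
  · intro ρ
    rcases hGan.eventually_constant_or_nhds_le_map_nhds with h | h
    · exfalso
      have h2 : ∀ᶠ w in 𝓝 (0 : ℂ), (reflect D (Q ^ 2)).eval w ≠ 0 :=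
        (Polynomial.continuous _).continuousAt.eventually_ne hM0
      have h3 : ∀ᶠ w in 𝓝 (0 : ℂ), (reflect D (num P Q)).eval w = (0 : ℂ[X]).eval w := by
        filter_upwards [h, h2] with w hw1 hw2
        rw [hG0] at hw1
        rw [eval_zero]
        exact (div_eq_zero_iff.mp hw1).resolve_right hw2
      have h4 := Polynomial.eq_of_infinite_eval_eq _ _ (infinite_of_mem_nhds 0 h3)
      rw [reflect_eq_zero_iff] at h4
      exact num_ne hPQ hdeg 0 (by rw [h4, C_0, zero_mul])
    · have hball : Metric.ball (0 : ℂ) (1 / (|ρ| + 1)) ∈ 𝓝 (0 : ℂ) :=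
        Metric.ball_mem_nhds _ (by positivity)
      have h1 : G '' Metric.ball (0 : ℂ) (1 / (|ρ| + 1)) ∈ 𝓝 (G 0) := h (image_mem_map hball)
      rw [hG0] at h1
      obtain ⟨ε, hε, hb⟩ := Metric.mem_nhds_iff.mp h1
      have h2 : ((ε / 2 : ℝ) : ℂ) ∈ Metric.ball (0 : ℂ) ε := by
        rw [Metric.mem_ball, dist_zero_right, Complex.norm_real,
          Real.norm_eq_abs, abs_of_pos (by positivity)]
        linarith
      obtain ⟨w, hw, hw2⟩ := hb h2
      have hw0 : w ≠ 0 := by
        rintro rfl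
        rw [hG0] at hw2
        have := congrArg Complex.re hw2
        rw [Complex.zero_re, Complex.ofReal_re] at this
        linarith
      refine ⟨w⁻¹, ?_, ?_, ?_⟩
      · rw [norm_inv]
        rw [Metric.mem_ball, dist_zero_right] at hw
        have hwpos : 0 < ‖w‖ := norm_pos_iff.mpr hw0
        have h5 : |ρ| + 1 < ‖w‖⁻¹ := by
          rw [lt_inv_comm₀ (by positivity) hwpos]
          simpa using hw
        have := le_abs_self ρ
        linarith
      · rw [← hGF w hw0, hw2, Complex.ofReal_im]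
      · rw [← hGF w hw0, hw2, Complex.ofReal_re]
        positivity
  · intro δ hδ
    have hc := hGan.continuousAt
    obtain ⟨r, hr, h⟩ := Metric.continuousAt_iff.mp hc δ hδ
    refine ⟨1 / r, fun z hz => ?_⟩
    have hzpos : 0 < ‖z‖ := lt_trans (by positivity) hz
    have hz0 : z ≠ 0 := norm_pos_iff.mp hzpos
    have h1 : dist z⁻¹ 0 < r := by
      rw [dist_zero_right, norm_inv, inv_lt_comm₀ hzpos hr]
      simpa using hz
    have h2 := h h1
    rw [hG0, dist_zero_right, hGF _ (inv_ne_zero hz0), inv_inv] at h2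
    exact lt_of_le_of_lt (Complex.re_le_norm _) h2

/-- if `∞` is not a pole, some pole lies on an unbounded component -/
theorem exists_unbounded (hPQ : IsCoprime P Q) (hdeg : 0 < Q.natDegree)
    (hle : P.natDegree ≤ Q.natDegree) :
    ∃ p, Q.eval p = 0 ∧ ¬ Bornology.IsBounded (connectedComponentIn (curve P Q) p) := by
  classical
  by_contra hc
  push Not at hc
  have hQ0 : Q ≠ 0 := by
    rintro rfl
    simp at hdeg
  have hroot : ∀ p, Q.eval p = 0 → p ∈ curve P Q := fun p hp => Or.inl hp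
  -- clopen pieces around the poles
  have hex : ∀ p : ℂ, Q.eval p = 0 → ∃ V : Set ℂ, IsOpen V ∧ p ∈ V ∧
      IsCompact (curve P Q ∩ V) := by
    intro p hp
    obtain ⟨V, hV, hpV, -, hK⟩ := exists_clopen isClosed_curve (hroot p hp) (hc p hp)
      isOpen_univ (Set.subset_univ _)
    exact ⟨V, hV, hpV, hK⟩
  choose! V hV hpV hK using hex
  set W : Set ℂ := ⋃ p ∈ Q.roots.toFinset, V p with hW
  have hrt : ∀ p, p ∈ Q.roots.toFinset ↔ Q.eval p = 0 := by
    intro p
    rw [Multiset.mem_toFinset, mem_roots hQ0, IsRoot.def]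
  have hWo : IsOpen W := isOpen_biUnion fun p hp => hV p ((hrt p).mp hp)
  have hKc : IsCompact (curve P Q ∩ W) := by
    rw [hW, Set.inter_iUnion₂]
    exact Q.roots.toFinset.isCompact_biUnion fun p hp => hK p ((hrt p).mp hp)
  have hrootW : ∀ p, Q.eval p = 0 → p ∈ W := by
    intro p hp
    exact Set.mem_biUnion ((hrt p).mpr hp) (hpV p hp)
  obtain ⟨ρ, hρ⟩ := hKc.isBounded.subset_closedBall (0 : ℂ)
  obtain ⟨hinf1, hinf2⟩ := at_infinity hPQ hdeg hle
  obtain ⟨z1, hz1, hz1r, hz1p⟩ := hinf1 ρ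
  set δ := (F P Q z1).re with hδ
  obtain ⟨ρ', hρ'⟩ := hinf2 δ hz1p
  have hz1A : z1 ∈ curve P Q := mem_curve.mpr hz1r
  have hz1W : z1 ∉ W := by
    intro h
    have := hρ ⟨hz1A, h⟩
    rw [mem_closedBall_zero_iff] at this
    linarith
  -- the rest of the curve
  set L : Set ℂ := curve P Q ∩ Wᶜ with hL
  have hLc : IsClosed L := isClosed_curve.inter hWo.isClosed_compl
  have hLQ : ∀ z ∈ L, Q.eval z ≠ 0 := fun z hz h => hz.2 (hrootW z h)
  have hcont : ContinuousOn (fun w => (F P Q w).re) L := fun w hw =>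
    (Complex.continuous_re.continuousAt.comp (continuousAt_F (hLQ w hw))).continuousWithinAt
  set L' : Set ℂ := L ∩ (fun w => (F P Q w).re) ⁻¹' Set.Ici δ with hL'
  have hL'closed : IsClosed L' := hcont.preimage_isClosed_of_isClosed hLc isClosed_Ici
  have hL'b : Bornology.IsBounded L' := by
    refine (Metric.isBounded_closedBall (x := (0 : ℂ)) (r := ρ')).subset fun z hz => ?_
    rw [mem_closedBall_zero_iff]
    by_contra h
    have h2 := hρ' z (not_le.mp h)
    have h3 : δ ≤ (F P Q z).re := hz.2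
    linarith
  have hL'k : IsCompact L' := Metric.isCompact_of_isClosed_isBounded hL'closed hL'b
  obtain ⟨x, hx, hmax⟩ := hL'k.exists_isMaxOn ⟨z1, ⟨hz1A, hz1W⟩, le_refl δ⟩
    (hcont.mono Set.inter_subset_left)
  have hxK : (curve P Q ∩ W)ᶜ ∈ 𝓝 x :=
    hKc.isClosed.isOpen_compl.mem_nhds fun h => hx.1.2 h.2
  obtain ⟨w, hw, hw1, hw2⟩ := increase hPQ hdeg (hLQ x hx.1) (mem_curve.mp hx.1.1) hxK
  have hwA : w ∈ curve P Q := mem_curve.mpr hw1
  have hwL : w ∈ L := ⟨hwA, fun h => hw ⟨hwA, h⟩⟩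
  have hwL' : w ∈ L' := ⟨hwL, show δ ≤ (F P Q w).re from le_trans hx.2 hw2.le⟩
  exact absurd (hmax hwL') (not_le.mpr hw2)

end

end Q48.IR
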