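import Mathlib
import Pool.Agent.Q48.IR.Upper

namespace Q48.IR

open Polynomial Filter Topology

variable {P Q : ℂ[X]} {m : ℂ →₀ ℕ} {mInf : ℕ}

theorem HasPoleDivisor.eval_eq_zero_iff (h : HasPoleDivisor P Q m mInf) (p : ℂ) :
    Q.eval p = 0 ↔ p ∈ m.support := by
  rw [Finsupp.mem_support_iff, ← h.2.2.1 p, ← Nat.pos_iff_ne_zero, rootMultiplicity_pos h.1]
  rfl

theorem HasPoleDivisor.natDegree_pos (h : HasPoleDivisor P Q m mInf) (hm : m.support.Nonempty) :
    0 < Q.natDegree := by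
  obtain ⟨p, hp⟩ := hm
  have h1 := (h.eval_eq_zero_iff p).mpr hp
  by_contra hc
  have h2 : Q.natDegree = 0 := by omega
  rw [eq_C_of_natDegree_eq_zero h2, eval_C] at h1
  apply h.1
  rw [eq_C_of_natDegree_eq_zero h2, h1, C_0]

theorem encard_le_of (T : Set ℂ) (hPQ : IsCoprime P Q) (hdeg : 0 < Q.natDegree)
    (hT : ∀ p, Q.eval p = 0 → Bornology.IsBounded (connectedComponentIn (curve P Q) p) → p ∈ T) :
    (boundedComponents P Q).encard ≤ T.encard := by
  have hex : ∀ C ∈ boundedComponents P Q, ∃ p ∈ C, Q.eval p = 0 := by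
    rintro C ⟨z, hz, rfl, hb⟩
    exact exists_root hPQ hdeg hz hb
  have key : ∀ C ∈ boundedComponents P Q, ∀ p ∈ C, C = connectedComponentIn (curve P Q) p := by
    rintro C ⟨z, hz, rfl, hb⟩ p hp
    exact connectedComponentIn_eq hp
  choose! f hf hf0 using hex
  refine Set.encard_le_encard_of_injOn (f := f) ?_ ?_
  · intro C hC
    refine hT _ (hf0 C hC) ?_
    rw [← key C hC _ (hf C hC)]
    obtain ⟨z, hz, rfl, hb⟩ := hC
    exact hb
  · intro C hC C' hC' h
    rw [key C hC _ (hf C hC), key C' hC' _ (hf C' hC'), h]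

theorem encard_le (h : HasPoleDivisor P Q m mInf) (hm : m.support.Nonempty) :
    (boundedComponents P Q).encard ≤ m.support.card := by
  rw [← Set.encard_coe_eq_coe_finsetCard]
  refine encard_le_of _ h.2.1 (h.natDegree_pos hm) ?_
  intro p hp _
  exact (h.eval_eq_zero_iff p).mp hp

theorem encard_le' (h : HasPoleDivisor P Q m 0) (hm : m.support.Nonempty) :
    (boundedComponents P Q).encard ≤ ((m.support.card - 1 : ℕ) : ℕ∞) := by
  classical
  obtain ⟨p0, hp0, hb0⟩ := exists_unbounded h.2.1 (h.natDegree_pos hm)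
    (Nat.sub_eq_zero_iff_le.mp h.2.2.2)
  rw [← Finset.card_erase_of_mem ((h.eval_eq_zero_iff p0).mp hp0),
    ← Set.encard_coe_eq_coe_finsetCard]
  refine encard_le_of _ h.2.1 (h.natDegree_pos hm) ?_
  intro p hp hb
  rw [Finset.coe_erase]
  refine ⟨(h.eval_eq_zero_iff p).mp hp, ?_⟩
  rintro rfl
  exact hb0 hb

/-! ### the construction -/

/-- the denominator -/
noncomputable def den (m : ℂ →₀ ℕ) : ℂ[X] := ∏ p ∈ m.support, (X - C p) ^ m p

/-- the proper part of the numerator -/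
noncomputable def prop (m : ℂ →₀ ℕ) (a : ℂ → ℂ) : ℂ[X] := by
  classical exact
  ∑ p ∈ m.support, C (a p) * ∏ q ∈ m.support.erase p, (X - C q) ^ m q

theorem den_ne : den m ≠ 0 := by
  unfold den
  exact Finset.prod_ne_zero_iff.mpr fun p _ => pow_ne_zero _ (X_sub_C_ne_zero p)

theorem eval_den (z : ℂ) : (den m).eval z = ∏ p ∈ m.support, (z - p) ^ m p := by
  unfold den
  rw [eval_prod]
  simp

theorem eval_den_ne {z : ℂ} : (den m).eval z ≠ 0 ↔ z ∉ m.support := by
  rw [eval_den, Finset.prod_ne_zero_iff]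
  constructor
  · intro h hz
    exact h z hz (by rw [sub_self, zero_pow (Finsupp.mem_support_iff.mp hz)])
  · intro h p hp h0
    have := eq_zero_of_pow_eq_zero h0
    rw [sub_eq_zero.mp this] at h
    exact h hp

theorem eval_prop_self (a : ℂ → ℂ) {p : ℂ} (hp : p ∈ m.support) (ha : a p ≠ 0) :
    (prop m a).eval p ≠ 0 := by
  classical
  unfold prop
  rw [eval_finsetSum, Finset.sum_eq_single p]
  · rw [eval_mul, eval_C, eval_prod]
    refine mul_ne_zero ha (Finset.prod_ne_zero_iff.mpr fun q hq => ?_)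
    rw [eval_pow, eval_sub, eval_X, eval_C]
    exact pow_ne_zero _ (sub_ne_zero.mpr (Finset.ne_of_mem_erase hq).symm)
  · intro q hq hqp
    rw [eval_mul, eval_prod, Finset.prod_eq_zero (Finset.mem_erase.mpr ⟨hqp.symm, hp⟩), mul_zero]
    rw [eval_pow, eval_sub, eval_X, eval_C, sub_self,
      zero_pow (Finsupp.mem_support_iff.mp hp)]
  · intro h
    exact absurd hp h

theorem coprime_of (G : ℂ[X]) (a : ℂ → ℂ) (ha : ∀ p ∈ m.support, a p ≠ 0) :
    IsCoprime (G * den m + prop m a) (den m) := by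
  unfold den
  refine IsCoprime.prod_right fun p hp => IsCoprime.pow_right ?_
  refine IsCoprime.symm ((Polynomial.irreducible_X_sub_C p).coprime_iff_not_dvd.mpr ?_)
  rw [dvd_iff_isRoot, IsRoot.def, eval_add, eval_mul]
  have h1 : (∏ p ∈ m.support, (X - C p) ^ m p : ℂ[X]).eval p = 0 := by
    by_contra h
    exact (eval_den_ne (m := m)).mp h hp
  rw [h1, mul_zero, zero_add]
  exact eval_prop_self a hp (ha p hp)

theorem rootMultiplicity_den (p : ℂ) : (den m).rootMultiplicity p = m p := by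
  classical
  by_cases hp : p ∈ m.support
  · have h1 : den m = (∏ q ∈ m.support.erase p, (X - C q) ^ m q) * (X - C p) ^ m p := by
      unfold den
      rw [Finset.prod_erase_mul _ _ hp]
    have h2 : (∏ q ∈ m.support.erase p, (X - C q) ^ m q : ℂ[X]) ≠ 0 :=
      Finset.prod_ne_zero_iff.mpr fun p _ => pow_ne_zero _ (X_sub_C_ne_zero p)
    rw [h1, rootMultiplicity_mul_X_sub_C_pow h2, rootMultiplicity_eq_zero, zero_add]
    rw [IsRoot.def, eval_prod]
    refine Finset.prod_ne_zero_iff.mpr fun q hq => ?_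
    rw [eval_pow, eval_sub, eval_X, eval_C]
    exact pow_ne_zero _ (sub_ne_zero.mpr (Finset.ne_of_mem_erase hq).symm)
  · rw [Finsupp.notMem_support_iff.mp hp]
    exact rootMultiplicity_eq_zero (eval_den_ne.mpr hp)

theorem natDegree_prop_lt (a : ℂ → ℂ) (hm : m.support.Nonempty) :
    (prop m a).natDegree < (den m).natDegree := by
  classical
  have hden : (den m).natDegree = ∑ p ∈ m.support, m p := by
    unfold den
    rw [natDegree_prod _ _ fun p _ => pow_ne_zero _ (X_sub_C_ne_zero p)]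
    refine Finset.sum_congr rfl fun p _ => ?_
    rw [natDegree_pow, natDegree_X_sub_C, mul_one]
  have hpos : 0 < (den m).natDegree := by
    rw [hden]
    exact Finset.sum_pos (fun p hp => Nat.pos_of_ne_zero (Finsupp.mem_support_iff.mp hp)) hm
  unfold prop
  refine lt_of_le_of_lt (natDegree_sum_le_of_forall_le (n := (den m).natDegree - 1) _ _ ?_)
    (by omega)
  intro p hp
  refine (natDegree_C_mul_le _ _).trans ?_
  rw [natDegree_prod _ _ fun p _ => pow_ne_zero _ (X_sub_C_ne_zero p)]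
  have h1 : ∑ q ∈ m.support.erase p, ((X - C q) ^ m q : ℂ[X]).natDegree
      = ∑ q ∈ m.support.erase p, m q := by
    refine Finset.sum_congr rfl fun p _ => ?_
    rw [natDegree_pow, natDegree_X_sub_C, mul_one]
  rw [h1]
  have h2 := Finset.add_sum_erase m.support (fun q => m q) hp
  have h3 : 0 < m p := Nat.pos_of_ne_zero (Finsupp.mem_support_iff.mp hp)
  omega

theorem hasPoleDivisor_of (G : ℂ[X]) (a : ℂ → ℂ) (ha : ∀ p ∈ m.support, a p ≠ 0)
    (hm : m.support.Nonempty) : HasPoleDivisor (G * den m + prop m a) (den m) m G.natDegree := by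
  refine ⟨den_ne, coprime_of G a ha, rootMultiplicity_den, ?_⟩
  have h := natDegree_prop_lt a hm
  by_cases hG : G = 0
  · rw [hG, zero_mul, zero_add, natDegree_zero]
    omega
  · have h1 : (G * den m).natDegree = G.natDegree + (den m).natDegree :=
      natDegree_mul hG den_ne
    rw [natDegree_add_eq_left_of_natDegree_lt (by omega), h1]
    omega

theorem quot_eq (G : ℂ[X]) (a : ℂ → ℂ) {z : ℂ} (hz : z ∉ m.support) :
    (G * den m + prop m a).eval z / (den m).eval z
      = G.eval z + ∑ p ∈ m.support, a p * ((z - p) ^ m p)⁻¹ := by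
  classical
  have h0 : (den m).eval z ≠ 0 := eval_den_ne.mpr hz
  rw [eval_add, eval_mul, add_div, mul_div_assoc, div_self h0, mul_one]
  congr 1
  unfold prop
  rw [eval_finsetSum, Finset.sum_div]
  refine Finset.sum_congr rfl fun p hp => ?_
  rw [eval_mul, eval_C, eval_den, ← Finset.mul_prod_erase _ _ hp, eval_prod]
  have h1 : ∏ q ∈ m.support.erase p, (z - q) ^ m q ≠ 0 := by
    refine Finset.prod_ne_zero_iff.mpr fun q hq => pow_ne_zero _ (sub_ne_zero.mpr ?_)
    rintro rfl
    exact hz (Finset.mem_of_mem_erase hq)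
  have h2 : (z - p) ^ m p ≠ 0 := by
    refine pow_ne_zero _ (sub_ne_zero.mpr ?_)
    rintro rfl
    exact hz hp
  have h3 : ∏ q ∈ m.support.erase p, ((X - C q) ^ m q : ℂ[X]).eval z
      = ∏ q ∈ m.support.erase p, (z - q) ^ m q := by simp
  rw [h3]
  field_simp

theorem hasDerivAt_inv_pow (a p z : ℂ) (n : ℕ) (hn : n ≠ 0) (hz : z ≠ p) :
    HasDerivAt (fun w => a * ((w - p) ^ n)⁻¹) (-(a * n * ((z - p) ^ (n + 1))⁻¹)) z := by
  have hzp : z - p ≠ 0 := sub_ne_zero.mpr hz
  obtain ⟨k, rfl⟩ := Nat.exists_eq_succ_of_ne_zero hn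
  have h1 : HasDerivAt (fun w => (w - p) ^ (k + 1)) (((k + 1 : ℕ) : ℂ) * (z - p) ^ (k + 1 - 1) * 1)
      z := ((hasDerivAt_id z).sub_const p).pow (k + 1)
  have h2 := (h1.inv (pow_ne_zero _ hzp)).const_mul a
  have h3 : -(a * ((k.succ : ℕ) : ℂ) * ((z - p) ^ (k.succ + 1))⁻¹) =
      a * (-(((k + 1 : ℕ) : ℂ) * (z - p) ^ (k + 1 - 1) * 1) / ((z - p) ^ (k + 1)) ^ 2) := by
    rw [Nat.succ_eq_add_one, Nat.add_sub_cancel]
    field_simp
    ring
  rw [h3]
  exact h2

theorem deriv_quot (G : ℂ[X]) (a : ℂ → ℂ) {z : ℂ} (hz : z ∉ m.support) :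
    deriv (fun w => (G * den m + prop m a).eval w / (den m).eval w) z
      = (derivative G).eval z - ∑ p ∈ m.support, a p * m p * ((z - p) ^ (m p + 1))⁻¹ := by
  have h1 : (fun w => (G * den m + prop m a).eval w / (den m).eval w) =ᶠ[𝓝 z]
      fun w => G.eval w + ∑ p ∈ m.support, a p * ((w - p) ^ m p)⁻¹ := by
    have h2 : ∀ᶠ w in 𝓝 z, (den m).eval w ≠ 0 :=
      (Polynomial.continuous _).continuousAt.eventually_ne (eval_den_ne.mpr hz)
    filter_upwards [h2] with w hw
    exact quot_eq G a (eval_den_ne.mp hw)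
  rw [h1.deriv_eq]
  have h3 : HasDerivAt (fun w => ∑ p ∈ m.support, a p * ((w - p) ^ m p)⁻¹)
      (∑ p ∈ m.support, -(a p * m p * ((z - p) ^ (m p + 1))⁻¹)) z := by
    refine HasDerivAt.fun_sum fun p hp => ?_
    refine hasDerivAt_inv_pow _ _ _ _ (Finsupp.mem_support_iff.mp hp) ?_
    rintro rfl
    exact hz hp
  have h4 := ((G.hasDerivAt z).add h3).deriv
  rw [Finset.sum_neg_distrib, ← sub_eq_add_neg] at h4
  exact h4

end Q48.IR
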