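import Mathlib
import Pool.Agent.Q48.IR.Count

namespace Q48.IR

open Polynomial Filter Topology

variable {m : ℂ →₀ ℕ}

/-- a component is trapped by a circle on which the derivative is not real -/
theorem trapped {P Q : ℂ[X]} {p : ℂ} {r : ℝ} (hr : 0 < r)
    (h : ∀ z ∈ Metric.sphere p r, z ∉ curve P Q) :
    connectedComponentIn (curve P Q) p ⊆ Metric.ball p r := by
  by_cases hp : p ∈ curve P Q
  · by_contra hc
    obtain ⟨w, hw, hw2⟩ := Set.not_subset.mp hc
    have hpre : IsPreconnected (connectedComponentIn (curve P Q) p) :=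
      isPreconnected_connectedComponentIn
    have hsph : ∀ z ∈ connectedComponentIn (curve P Q) p, z ∉ Metric.sphere p r := fun z hz hz2 =>
      h z hz2 (connectedComponentIn_subset _ _ hz)
    obtain ⟨z, -, hz1, hz2⟩ := hpre (Metric.ball p r) (Metric.closedBall p r)ᶜ Metric.isOpen_ball
      Metric.isClosed_closedBall.isOpen_compl (by
        intro z hz
        have h1 := hsph z hz
        rw [Metric.mem_sphere] at h1
        rcases lt_or_gt_of_ne h1 with h2 | h2
        · exact Or.inl h2
        · right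
          rw [Set.mem_compl_iff, Metric.mem_closedBall, not_le]
          exact h2)
      ⟨p, mem_connectedComponentIn hp, Metric.mem_ball_self hr⟩
      ⟨w, hw, by
        have h1 := hsph w hw
        rw [Metric.mem_sphere] at h1
        rw [Metric.mem_ball, not_lt] at hw2
        rw [Set.mem_compl_iff, Metric.mem_closedBall, not_le]
        exact lt_of_le_of_ne hw2 (Ne.symm h1)⟩
    exact hz2 (Metric.ball_subset_closedBall hz1)
  · rw [connectedComponentIn_eq_empty hp]
    exact Set.empty_subset _

theorem card_le {P Q : ℂ[X]} (S' : Finset ℂ) {r : ℝ} (hr : 0 < r)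
    (hroot : ∀ p ∈ S', Q.eval p = 0)
    (h : ∀ p ∈ S', ∀ z ∈ Metric.sphere p r, z ∉ curve P Q)
    (hdist : ∀ p ∈ S', ∀ q ∈ S', p ≠ q → 2 * r < dist p q) :
    (S'.card : ℕ∞) ≤ (boundedComponents P Q).encard := by
  rw [← Set.encard_coe_eq_coe_finsetCard]
  have hcur : ∀ p ∈ S', p ∈ curve P Q := fun p hp => Or.inl (hroot p hp)
  refine Set.encard_le_encard_of_injOn
    (f := fun p => connectedComponentIn (curve P Q) p) ?_ ?_
  · intro p hp
    exact ⟨p, hcur p hp, rfl, Metric.isBounded_ball.subset (trapped hr (h p hp))⟩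
  · intro p hp q hq hpq
    by_contra hne
    have h1 : p ∈ connectedComponentIn (curve P Q) p := mem_connectedComponentIn (hcur p hp)
    have h2 := trapped hr (h p hp) h1
    simp only at hpq
    rw [hpq] at h1
    have h3 := trapped hr (h q hq) h1
    rw [Metric.mem_ball] at h3
    have h4 := hdist p hp q hq hne
    linarith

theorem lower (hm : m.support.Nonempty) (S' : Finset ℂ) (hS' : S' ⊆ m.support) (G : ℂ[X])
    (c : ℂ) (hc : c ≠ 0)
    (him : ∀ p ∈ S', ((derivative G).eval p - ∑ q ∈ m.support \ S',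
      c * m q * ((p - q) ^ (m q + 1))⁻¹).im ≠ 0) :
    ∃ P Q : ℂ[X], HasPoleDivisor P Q m G.natDegree ∧
      (S'.card : ℕ∞) ≤ (boundedComponents P Q).encard := by
  classical
  set g : ℂ → ℂ := fun z => (derivative G).eval z - ∑ q ∈ m.support \ S',
      c * m q * ((z - q) ^ (m q + 1))⁻¹ with hg
  have hgc : ∀ p ∈ S', ContinuousAt g p := by
    intro p hp
    refine ((derivative G).continuous.continuousAt).sub ?_
    refine tendsto_finsetSum _ fun q hq => ?_
    refine Tendsto.const_mul _ ?_
    refine ContinuousAt.inv₀ (by fun_prop) (pow_ne_zero _ (sub_ne_zero.mpr ?_))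
    rintro rfl
    exact (Finset.mem_sdiff.mp hq).2 hp
  -- choice of the radius
  have hr1 : ∀ p ∈ S', ∀ᶠ r : ℝ in 𝓝[>] 0, ∀ z ∈ Metric.closedBall p r,
      |(g p).im| / 2 < |(g z).im| := by
    intro p hp
    have h1 : ContinuousAt (fun z => |(g z).im|) p :=
      (continuous_abs.continuousAt).comp (Complex.continuous_im.continuousAt.comp (hgc p hp))
    have h2 : |(g p).im| / 2 < |(g p).im| := by
      have := abs_pos.mpr (him p hp)
      linarith
    have h3 : ∀ᶠ z in 𝓝 p, |(g p).im| / 2 < |(g z).im| := h1.eventually_const_lt h2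
    obtain ⟨δ, hδ, hb⟩ := Metric.eventually_nhds_iff_ball.mp h3
    filter_upwards [Ioo_mem_nhdsGT hδ] with r hr z hz
    exact hb z (Metric.closedBall_subset_ball hr.2 hz)
  have hr2 : ∀ p ∈ S', ∀ᶠ r : ℝ in 𝓝[>] 0, ∀ q ∈ m.support, p ≠ q → 2 * r < dist p q := by
    intro p hp
    rw [Finset.eventually_all]
    intro q hq
    by_cases hpq : p = q
    · filter_upwards with r h
      exact absurd hpq h
    · have hd : 0 < dist p q / 2 := by
        have := dist_pos.mpr hpq
        linarith
      filter_upwards [Ioo_mem_nhdsGT hd] with r hr _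
      have := hr.2
      linarith
  have hr : ∀ᶠ r : ℝ in 𝓝[>] 0, 0 < r ∧ (∀ p ∈ S', ∀ z ∈ Metric.closedBall p r,
      |(g p).im| / 2 < |(g z).im|) ∧
      (∀ p ∈ S', ∀ q ∈ m.support, p ≠ q → 2 * r < dist p q) := by
    filter_upwards [self_mem_nhdsWithin, (Finset.eventually_all _).mpr hr1,
      (Finset.eventually_all _).mpr hr2] with r h1 h2 h3
    exact ⟨h1, h2, h3⟩
  obtain ⟨r, hr0, hr1, hr2⟩ := hr.exists
  -- choice of the small coefficient
  set K : ℝ := ∑ q ∈ S', (m q : ℝ) * (r ^ (m q + 1))⁻¹ with hK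
  have hK0 : 0 ≤ K := Finset.sum_nonneg fun q _ => by positivity
  have he : ∀ᶠ ε : ℝ in 𝓝[>] 0, 0 < ε ∧ ∀ p ∈ S', ε * K < |(g p).im| / 2 := by
    have h1 : ∀ p ∈ S', ∀ᶠ ε : ℝ in 𝓝[>] 0, ε * K < |(g p).im| / 2 := by
      intro p hp
      have h2 : 0 < |(g p).im| / 2 := by
        have := abs_pos.mpr (him p hp)
        linarith
      have h3 : 0 < |(g p).im| / 2 / (K + 1) := by positivity
      filter_upwards [Ioo_mem_nhdsGT h3] with ε hε
      have h4 := (lt_div_iff₀ (by positivity)).mp hε.2
      nlinarith [hε.1]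
    filter_upwards [self_mem_nhdsWithin, (Finset.eventually_all _).mpr h1] with ε h1 h2
    exact ⟨h1, h2⟩
  obtain ⟨ε, hε0, hε⟩ := he.exists
  set a : ℂ → ℂ := fun p => if p ∈ S' then (ε : ℂ) else c with ha
  have ha0 : ∀ p ∈ m.support, a p ≠ 0 := by
    intro p hp
    simp only [ha]
    split_ifs with h
    · exact_mod_cast hε0.ne'
    · exact hc
  refine ⟨G * den m + prop m a, den m, hasPoleDivisor_of G a ha0 hm, ?_⟩
  refine card_le S' hr0 ?_ ?_ ?_
  · intro p hp
    by_contra h
    exact eval_den_ne.mp h (hS' hp)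
  · intro p hp z hz
    have hz' : dist z p = r := hz
    have hzS : z ∉ m.support := by
      intro hzm
      have hne : p ≠ z := by
        rintro rfl
        rw [dist_self] at hz'
        linarith
      have := hr2 p hp z hzm hne
      rw [dist_comm] at this
      linarith
    unfold curve
    simp only [Set.mem_ofPred_eq, not_or]
    refine ⟨eval_den_ne.mpr hzS, ?_⟩
    rw [deriv_quot G a hzS]
    have hsum : ∑ q ∈ m.support, a q * m q * ((z - q) ^ (m q + 1))⁻¹
        = ∑ q ∈ m.support \ S', c * m q * ((z - q) ^ (m q + 1))⁻¹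
          + ∑ q ∈ S', (ε : ℂ) * m q * ((z - q) ^ (m q + 1))⁻¹ := by
      rw [← Finset.sum_sdiff hS']
      congr 1
      · refine Finset.sum_congr rfl fun q hq => ?_
        simp only [ha, if_neg (Finset.mem_sdiff.mp hq).2]
      · refine Finset.sum_congr rfl fun q hq => ?_
        simp only [ha, if_pos hq]
    rw [hsum, ← sub_sub]
    have hbound : ‖∑ q ∈ S', (ε : ℂ) * m q * ((z - q) ^ (m q + 1))⁻¹‖ ≤ ε * K := by
      rw [hK, Finset.mul_sum]
      refine norm_sum_le_of_le _ fun q hq => ?_
      rw [norm_mul, norm_mul, norm_inv, norm_pow, Complex.norm_real, Real.norm_eq_abs,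
        abs_of_pos hε0, Complex.norm_natCast, mul_assoc]
      have h1 : r ≤ ‖z - q‖ := by
        rw [← dist_eq_norm]
        by_cases hpq : p = q
        · rw [← hpq, hz']
        · have h2 := hr2 p hp q (hS' hq) hpq
          have h3 := dist_triangle p z q
          rw [dist_comm p z, hz'] at h3
          linarith
      refine mul_le_mul_of_nonneg_left (mul_le_mul_of_nonneg_left ?_ (by positivity)) hε0.le
      exact inv_anti₀ (by positivity) (pow_le_pow_left₀ hr0.le h1 _)
    have h4 : |(g p).im| / 2 < |(g z).im| := hr1 p hp z (Metric.sphere_subset_closedBall hz)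
    have h5 := hε p hp
    have h6 := Complex.abs_im_le_norm (∑ q ∈ S', (ε : ℂ) * m q * ((z - q) ^ (m q + 1))⁻¹)
    intro h7
    rw [Complex.sub_im, sub_eq_zero] at h7
    have h8 : (g z).im = (∑ q ∈ S', (ε : ℂ) * m q * ((z - q) ^ (m q + 1))⁻¹).im := h7
    rw [← h8] at h6
    linarith
  · intro p hp q hq hpq
    exact hr2 p hp q (hS' hq) hpq

/-- a rotation avoiding real values -/
theorem exists_rotation (W : Finset ℂ) (hW : ∀ w ∈ W, w ≠ 0) :
    ∃ c : ℂ, c ≠ 0 ∧ ∀ w ∈ W, (c * w).im ≠ 0 := by
  classical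
  obtain ⟨τ, hτ⟩ := Infinite.exists_notMem_finset (W.image fun w => -w.im / w.re)
  refine ⟨⟨1, τ⟩, ?_, ?_⟩
  · intro h
    have := congrArg Complex.re h
    simp at this
  · intro w hw h
    rw [Complex.mul_im] at h
    simp only [one_mul] at h
    by_cases hre : w.re = 0
    · apply hW w hw
      apply Complex.ext
      · exact hre
      · rw [hre, mul_zero, add_zero] at h
        exact h
    · apply hτ
      rw [Finset.mem_image]
      refine ⟨w, hw, ?_⟩
      field_simp
      linarith

theorem exists_pos (hm : m.support.Nonempty) (k : ℕ) :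
    ∃ P Q : ℂ[X], HasPoleDivisor P Q m (k + 1) ∧
      (m.support.card : ℕ∞) ≤ (boundedComponents P Q).encard := by
  classical
  obtain ⟨b, hb⟩ := Infinite.exists_notMem_finset m.support
  obtain ⟨c, hc, hcW⟩ := exists_rotation
    (m.support.image fun p => ((k + 1 : ℕ) : ℂ) * (p - b) ^ k) (by
      intro w hw
      obtain ⟨p, hp, rfl⟩ := Finset.mem_image.mp hw
      refine mul_ne_zero (Nat.cast_ne_zero.mpr (Nat.succ_ne_zero k))
        (pow_ne_zero _ (sub_ne_zero.mpr ?_))
      rintro rfl
      exact hb hp)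
  have hG : (C c * (X - C b) ^ (k + 1)).natDegree = k + 1 := by
    rw [natDegree_C_mul hc, natDegree_pow, natDegree_X_sub_C, mul_one]
  have := lower hm m.support (Finset.Subset.refl _) (C c * (X - C b) ^ (k + 1)) 1 one_ne_zero ?_
  · rw [hG] at this
    exact this
  · intro p hp
    rw [Finset.sdiff_self, Finset.sum_empty, sub_zero]
    have h := hcW _ (Finset.mem_image_of_mem _ hp)
    convert h using 2
    rw [derivative_C_mul, derivative_X_sub_C_pow]
    simp

theorem exists_zero (hm : m.support.Nonempty) :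
    ∃ P Q : ℂ[X], HasPoleDivisor P Q m 0 ∧
      ((m.support.card - 1 : ℕ) : ℕ∞) ≤ (boundedComponents P Q).encard := by
  classical
  obtain ⟨p1, hp1⟩ := id hm
  obtain ⟨c, hc, hcW⟩ := exists_rotation
    ((m.support.erase p1).image fun p => (m p1 : ℂ) * ((p - p1) ^ (m p1 + 1))⁻¹) (by
      intro w hw
      obtain ⟨p, hp, rfl⟩ := Finset.mem_image.mp hw
      refine mul_ne_zero (Nat.cast_ne_zero.mpr (Finsupp.mem_support_iff.mp hp1))
        (inv_ne_zero (pow_ne_zero _ (sub_ne_zero.mpr (Finset.ne_of_mem_erase hp)))))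
  have := lower hm (m.support.erase p1) (Finset.erase_subset _ _) 0 c hc ?_
  · rw [natDegree_zero, Finset.card_erase_of_mem hp1] at this
    exact this
  · intro p hp
    have h1 : m.support \ m.support.erase p1 = {p1} := by
      ext q
      simp only [Finset.mem_sdiff, Finset.mem_erase, Finset.mem_singleton]
      constructor
      · rintro ⟨h1, h2⟩
        by_contra h3
        exact h2 ⟨h3, h1⟩
      · rintro rfl
        exact ⟨hp1, fun h => h.1 rfl⟩
    rw [h1, Finset.sum_singleton, derivative_zero, eval_zero, zero_sub, Complex.neg_im, neg_ne_zero,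
      mul_assoc]
    exact hcW _ (Finset.mem_image_of_mem _ hp)

end Q48.IR
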